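import Pool.Agent.Helper61.LF.GoalsN
import Pool.Agent.Helper66.LF.FGF

/-!
# PROJECT LF (MP_c65973_gt), packet EX: examples of rings with `NoAlg`
-/

set_option autoImplicit false

namespace Pool.Agent.Helper48.LF.EX

open Pool.Agent.Helper61.LF

universe u

theorem fin_res (s : Set (AlgebraicClosure ℚ)) (hs : s.Finite)
    (n : Ideal (Subring.closure s)) (hn : n.IsMaximal) : Finite ((Subring.closure s) ⧸ n) := by
  letI := Ideal.Quotient.field n
  refine Pool.Agent.Helper66.LF.FGF.t ((Subring.closure s) ⧸ n)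
    ((Ideal.Quotient.mk n) '' {c : Subring.closure s | (c : AlgebraicClosure ℚ) ∈ s}) ?_ ?_
  · exact (hs.preimage (Subtype.val_injective.injOn)).image _
  · rw [eq_top_iff]
    rintro x -
    obtain ⟨c, rfl⟩ := Ideal.Quotient.mk_surjective x
    obtain ⟨y, hy⟩ := c
    induction hy using Subring.closure_induction with
    | mem z hz =>
      exact Algebra.subset_adjoin ⟨⟨z, Subring.subset_closure hz⟩, hz, rfl⟩
    | zero =>
      have : (⟨0, Subring.zero_mem _⟩ : Subring.closure s) = 0 := rfl
      rw [this, map_zero]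
      exact Subalgebra.zero_mem _
    | one =>
      have : (⟨1, Subring.one_mem _⟩ : Subring.closure s) = 1 := rfl
      rw [this, map_one]
      exact Subalgebra.one_mem _
    | add a b ha hb iha ihb =>
      have : (⟨a + b, Subring.add_mem _ ha hb⟩ : Subring.closure s) = ⟨a, ha⟩ + ⟨b, hb⟩ := rfl
      rw [this, map_add]
      exact Subalgebra.add_mem _ iha ihb
    | neg a ha iha =>
      have : (⟨-a, Subring.neg_mem _ ha⟩ : Subring.closure s) = -⟨a, ha⟩ := rfl
      rw [this, map_neg]
      exact Subalgebra.neg_mem _ iha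
    | mul a b ha hb iha ihb =>
      have : (⟨a * b, Subring.mul_mem _ ha hb⟩ : Subring.closure s) = ⟨a, ha⟩ * ⟨b, hb⟩ := rfl
      rw [this, map_mul]
      exact Subalgebra.mul_mem _ iha ihb

theorem t (_h : S_FGF.{u}) : S_EX.{u} := by
  intro A _
  refine ⟨?_, ?_⟩
  · rintro ⟨n, hn, h0⟩ φ s hs hall
    have h1 : φ (n : A) = (n : AlgebraicClosure ℚ) := map_natCast φ n
    rw [h0, map_zero] at h1
    exact hn.ne' (Nat.cast_eq_zero.1 h1.symm)
  · intro hinf φ s hs hall
    obtain ⟨n, hn⟩ := Ideal.exists_maximal (Subring.closure s)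
    have hfin := fin_res s hs n hn
    letI := Ideal.Quotient.field n
    let ψ : A →+* (Subring.closure s) ⧸ n :=
      (Ideal.Quotient.mk n).comp (φ.codRestrict (Subring.closure s) hall)
    haveI hp : (RingHom.ker ψ).IsPrime := RingHom.ker_isPrime ψ
    have hinj : Function.Injective (RingHom.kerLift ψ) := RingHom.kerLift_injective ψ
    haveI hf : Finite (A ⧸ RingHom.ker ψ) := Finite.of_injective _ hinj
    have hm : (RingHom.ker ψ).IsMaximal :=
      Ideal.Quotient.maximal_of_isField _ (Finite.isField_of_domain (A ⧸ RingHom.ker ψ))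
    exact (hinf _ hm).not_finite hf

end Pool.Agent.Helper48.LF.EX
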